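import Pool.Agent.H30.VMR.A
import Pool.Agent.H30.VMR.B
import Pool.Agent.H30.VMR.C1
import Pool.Agent.H30.VMR.C2
import Pool.Agent.H30.VMR.C3
import Pool.Agent.H30.VMR.C4
import Pool.Agent.H30.VMR.D1
import Pool.Agent.H30.VMR.D2
import Pool.Agent.H30.VMR.D3
import Pool.Agent.H30.VMR.D4
import Pool.Agent.H30.VMR.D5
import Pool.Agent.H30.VMR.D6
import Pool.Agent.H30.VMR.E1
import Pool.Agent.H30.VMR.E2
import Pool.Agent.H30.VMR.E3
import Pool.Agent.H70.VMR.E4
import Pool.Agent.H30.VMR.F1
import Pool.Agent.H30.VMR.F2
import Pool.Agent.H30.VMR.F3
import Pool.Agent.H30.VMR.F4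
import Pool.Agent.H30.VMR.G

/-!
# A local biholomorphic map preserving a linear VMRT need not extend

There is a threefold `X` of Picard number one in projective 6-space (a smooth intersection of three
quadrics, a double cover of an intersection of two quadrics in projective 5-space), a minimal
component `K` of conics on `X` whose variety of minimal rational tangents is linear and not full,
and a biholomorphic map between connected open subsets of `X` which preserves the varieties of
minimal rational tangents and is not the restriction of a biregular automorphism of `X`.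
-/

namespace LVC

open Pool.VMR

theorem old : ∃ (X : Mfd 6 3) (K : Set (Par 6 2)) (L : Loc X),
    PicOne X ∧ MinComp X 2 K ∧ LinearVmrt X K ∧ NotFull X K ∧ Preserves X K L ∧
      ¬ Extends X L :=
  answer_of smoothS primesS (picS (starS vertS fLS)) (compS (kIrrS nFS nFcS wIrrS) nakS nFcS)
    (genHS_of genS) (vmrtS nFS nFcS) (finS nFS nFcS) linS locS presS (extS idS)

end LVC
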