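import Pool.Agent.H30.LVC.Defs
import Pool.Agent.H30.LVC.Old

/-!
The new definitions follow from those of `Pool.Agent.H30.VMR.Defs`.
-/

open MvPolynomial

namespace LVC

section

variable {N n e : ℕ} (X : Pool.VMR.Mfd N n)

theorem cone_eq : cone X.F = X.cone := rfl

theorem tan_eq (x : Fin (N + 1) → ℂ) : tan X.F x = (X.tan x : Set (Fin (N + 1) → ℂ)) := by
  ext v
  rw [SetLike.mem_coe, Pool.VMR.Mfd.tan, LinearMap.mem_ker, Matrix.mulVecLin_apply, funext_iff]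
  exact Iff.rfl

theorem isMfd : IsMfd X.F n := by
  refine ⟨fun j => ⟨X.d j, X.hom j⟩, X.prime, X.ne, fun x hx => ?_⟩
  have h : Module.finrank ℂ (X.tan x) = n + 1 := X.smooth x hx.1 hx.2
  let b := Module.finBasisOfFinrankEq ℂ (X.tan x) h
  have hm : ∀ v, v ∈ tan X.F x ↔ v ∈ X.tan x := fun v => by rw [tan_eq]; exact Iff.rfl
  refine ⟨fun k => (b k).1, fun k => (hm _).mpr (b k).2, fun v hv => ?_⟩
  let w : X.tan x := ⟨v, (hm v).mp hv⟩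
  have key : ∀ a : Fin (n + 1) → ℂ, (∀ i, v i = ∑ k, a k * (b k).1 i) ↔ w = ∑ k, a k • b k := by
    intro a
    constructor
    · intro h1
      apply Subtype.ext
      funext i
      rw [show (w : Fin (N + 1) → ℂ) i = v i from rfl, h1 i]
      simp [Finset.sum_apply]
    · intro h1 i
      have h2 : (w : Fin (N + 1) → ℂ) i = ((∑ k, a k • b k : X.tan x) : Fin (N + 1) → ℂ) i := by
        rw [h1]
      rw [show v i = (w : Fin (N + 1) → ℂ) i from rfl, h2]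
      simp [Finset.sum_apply]
  refine ⟨fun k => b.repr w k, (key _).mpr (b.sum_repr w).symm, fun a ha => ?_⟩
  have h1 := (key a).mp ha
  funext k
  rw [h1, b.repr_sum_self]

theorem ev_eq (f : Fin (e + 1) → Fin (N + 1) → ℂ) (s t : ℂ) : ev f s t = Pool.VMR.ev f s t := by
  funext j
  simp [ev, Pool.VMR.ev, Finset.sum_apply]

theorem evs_eq (f : Fin (e + 1) → Fin (N + 1) → ℂ) (s t : ℂ) : evs f s t = Pool.VMR.evs f s t := by
  funext j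
  simp [evs, Pool.VMR.evs, Finset.sum_apply]

theorem evt_eq (f : Fin (e + 1) → Fin (N + 1) → ℂ) (s t : ℂ) : evt f s t = Pool.VMR.evt f s t := by
  funext j
  simp [evt, Pool.VMR.evt, Finset.sum_apply]

theorem ne_iff (s t : ℂ) : (s ≠ 0 ∨ t ≠ 0) ↔ (s, t) ≠ (0, 0) := by
  rw [ne_eq (s, t), Prod.mk.injEq, not_and_or]

theorem ratCurves_eq (e : ℕ) : ratCurves X.F e = Pool.VMR.ratCurves X e := by
  ext f
  have e1 : ∀ s s' t' : ℂ, (s * t' ≠ s') ↔ ¬ Pool.VMR.Par1 s 1 s' t' := by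
    intro s s' t'
    unfold Pool.VMR.Par1
    rw [one_mul]
  unfold ratCurves Pool.VMR.ratCurves
  simp only [Set.mem_ofPred_eq, ne_iff, ev_eq, e1]
  exact Iff.rfl

theorem isComp_iff (e : ℕ) (K : Set (Fin (e + 1) → Fin (N + 1) → ℂ)) :
    IsComp X.F e K ↔ Pool.VMR.IsComp X e K := by
  unfold IsComp Pool.VMR.IsComp
  rw [ratCurves_eq]
  exact Iff.rfl

theorem thr_eq (K : Set (Fin (e + 1) → Fin (N + 1) → ℂ)) (x : Fin (N + 1) → ℂ) :
    thr K x = Pool.VMR.thr K x := by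
  unfold thr Pool.VMR.thr
  simp only [ne_iff, ev_eq]
  rfl

theorem rep_eq : (Rep : (Fin (e + 1) → Fin (N + 1) → ℂ) → _ → Prop) = Pool.VMR.Rep := by
  funext f g
  unfold Rep Pool.VMR.Rep
  simp only [ev_eq]

theorem minComp {K : Set (Fin (e + 1) → Fin (N + 1) → ℂ)} (h : Pool.VMR.MinComp X e K) :
    MinComp X.F e K := by
  refine ⟨(isComp_iff X e K).mpr h.1, ?_⟩
  obtain ⟨k, P, hP, h1, h2⟩ := h.2
  refine ⟨k, P, hP, h1, fun x hx hx' => ?_⟩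
  have h3 := h2 x hx hx'
  beta_reduce
  unfold IsCompactMod
  rw [thr_eq, rep_eq]
  exact h3

theorem smoothAt_iff (f : Fin (e + 1) → Fin (N + 1) → ℂ) (x : Fin (N + 1) → ℂ) (s t : ℂ) :
    SmoothAt f x s t ↔ Pool.VMR.SmoothAt f x s t := by
  unfold SmoothAt Pool.VMR.SmoothAt
  rw [LinearIndependent.pair_iff]
  simp only [ne_iff, ev_eq, evs_eq, evt_eq]
  exact Iff.rfl

theorem vmrt_eq (K : Set (Fin (e + 1) → Fin (N + 1) → ℂ)) (x : Fin (N + 1) → ℂ) :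
    vmrt K x = Pool.VMR.vmrt K x := by
  unfold vmrt Pool.VMR.vmrt
  congr 1
  ext v
  simp only [Set.mem_ofPred_eq, Submodule.mem_span_pair, smoothAt_iff, evs_eq, evt_eq]
  constructor
  · rintro ⟨f, hf, s, t, a, b, h, rfl⟩
    exact ⟨f, hf, s, t, h, a, b, rfl⟩
  · rintro ⟨f, hf, s, t, h, a, b, rfl⟩
    exact ⟨f, hf, s, t, a, b, h, rfl⟩

theorem linearVmrt {K : Set (Fin (e + 1) → Fin (N + 1) → ℂ)} (h : Pool.VMR.LinearVmrt X K) :
    LinearVmrt X.F K := by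
  obtain ⟨k, P, hP, h1, h2⟩ := h
  refine ⟨k, P, hP, h1, fun x hx hx' => ?_⟩
  obtain ⟨S, hS⟩ := h2 x hx hx'
  refine ⟨(fun L : Submodule ℂ (Fin (N + 1) → ℂ) => (L : Set (Fin (N + 1) → ℂ))) '' S,
    S.finite_toSet.image _, ?_, ?_⟩
  · rintro _ ⟨L, -, rfl⟩
    exact ⟨⟨0, L.zero_mem⟩, fun a b x hx y hy => L.add_mem (L.smul_mem a hx) (L.smul_mem b hy)⟩
  · rw [vmrt_eq, hS]
    ext v
    simp

theorem notFull {K : Set (Fin (e + 1) → Fin (N + 1) → ℂ)} (h : Pool.VMR.NotFull X K) :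
    NotFull X.F K := by
  obtain ⟨k, P, hP, h1, h2⟩ := h
  refine ⟨k, P, hP, h1, fun x hx hx' => ?_⟩
  beta_reduce
  rw [vmrt_eq, tan_eq]
  exact h2 x hx hx'

theorem isLift_iff (φ Φ : (Fin (N + 1) → ℂ) → Fin (N + 1) → ℂ) (x : Fin (N + 1) → ℂ) :
    IsLift X.F φ Φ x ↔ Pool.VMR.IsLift X φ Φ x := by
  unfold IsLift Pool.VMR.IsLift
  rw [eventually_nhdsWithin_iff, eventually_nhds_iff]
  constructor
  · rintro ⟨h, O, h1, h2, h3⟩
    exact ⟨h, O, h3, h1, h2⟩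
  · rintro ⟨h, O, h3, h1, h2⟩
    exact ⟨h, O, h1, h2, h3⟩

theorem isBihol (L : Pool.VMR.Loc X) : IsBihol X.F L.U L.U' L.φ L.ψ := by
  refine ⟨⟨L.openU, L.connU, fun x hx => ⟨L.coneU x hx, L.mapφ x hx, L.sameφ x hx, ?_⟩⟩,
    ⟨L.openU', L.connU', fun x hx => ⟨L.coneU' x hx, L.mapψ x hx, L.sameψ x hx, ?_⟩⟩,
    L.left, L.right⟩
  · obtain ⟨Φ, h⟩ := L.holφ x hx
    exact ⟨Φ, (isLift_iff X _ _ _).mpr h⟩
  · obtain ⟨Φ, h⟩ := L.holψ x hx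
    exact ⟨Φ, (isLift_iff X _ _ _).mpr h⟩

theorem dir_eq {Φ : (Fin (N + 1) → ℂ) → Fin (N + 1) → ℂ} {x : Fin (N + 1) → ℂ}
    (h : AnalyticAt ℂ Φ x) (v : Fin (N + 1) → ℂ) : dir Φ x v = fderiv ℂ Φ x v := by
  have e1 : ∀ z : ℂ, lin 1 z x v = x + z • v := by
    intro z
    funext i
    simp [lin]
  have h1 : HasFDerivAt Φ (fderiv ℂ Φ x) x := h.differentiableAt.hasFDerivAt
  have h2 : HasLineDerivAt ℂ Φ (fderiv ℂ Φ x v) x v := h1.hasLineDerivAt v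
  have h3 : HasDerivAt (fun z : ℂ => Φ (x + z • v)) (fderiv ℂ Φ x v) 0 := h2
  funext i
  unfold dir
  simp only [e1]
  exact ((hasDerivAt_pi.mp h3) i).deriv

theorem preserves {K : Set (Fin (e + 1) → Fin (N + 1) → ℂ)} {L : Pool.VMR.Loc X}
    (h : Pool.VMR.Preserves X K L) : Preserves X.F K L.U L.φ := by
  intro x hx
  obtain ⟨Φ, h1, h2⟩ := h x hx
  refine ⟨Φ, (isLift_iff X _ _ _).mpr h1, ?_⟩
  rw [vmrt_eq, vmrt_eq, ← h2]
  ext w
  constructor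
  · rintro ⟨v, hv, c, rfl⟩
    refine ⟨v, hv, c, ?_⟩
    rw [dir_eq h1.1]
    funext i
    simp [lin]
  · rintro ⟨v, hv, c, rfl⟩
    refine ⟨v, hv, c, ?_⟩
    rw [dir_eq h1.1]
    funext i
    simp [lin]

theorem isReg {A : (Fin (N + 1) → ℂ) → Fin (N + 1) → ℂ} (h : IsReg X.F A) :
    Pool.VMR.IsReg X A := by
  have e1 : ∀ (y : Fin (N + 1) → ℂ) (G : Fin (N + 1) → MvPolynomial (Fin (N + 1)) ℂ),
      ((fun i => eval y (G i)) ≠ 0) ↔ ∃ i, eval y (G i) ≠ 0 := by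
    intro y G
    rw [Function.ne_iff]
    exact Iff.rfl
  refine ⟨fun x hx => (h x hx).1, fun x hx => ?_⟩
  obtain ⟨-, k, G, h1, h2, h3⟩ := h x hx
  exact ⟨k, G, h1, (e1 x G).mpr h2, fun y hy hy' => h3 y hy ((e1 y G).mp hy')⟩

theorem extends_ {L : Pool.VMR.Loc X} (h : Extends X.F L.U L.φ) : Pool.VMR.Extends X L := by
  obtain ⟨A, B, hA, hB, h1, h2⟩ := h
  exact ⟨A, B, isReg X hA, isReg X hB, fun x hx => (h1 x hx).1, fun x hx => (h1 x hx).2, h2⟩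

end

/-- The main theorem. -/
theorem main : ∃ (m : ℕ) (F : Fin m → MvPolynomial (Fin 7) ℂ) (K : Set (Fin 3 → Fin 7 → ℂ))
    (U U' : Set (Fin 7 → ℂ)) (φ ψ : (Fin 7 → ℂ) → Fin 7 → ℂ),
    IsMfd F 3 ∧ PicOne F ∧ MinComp F 2 K ∧ LinearVmrt F K ∧ NotFull F K ∧ IsBihol F U U' φ ψ ∧
      Preserves F K U φ ∧ ¬ Extends F U φ := by
  obtain ⟨X, K, L, h1, h2, h3, h4, h5, h6⟩ := old
  exact ⟨X.m, X.F, K, L.U, L.U', L.φ, L.ψ, isMfd X, h1, minComp X h2, linearVmrt X h3, notFull X h4,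
    isBihol X L, preserves X h5, fun h => h6 (extends_ X h)⟩

end LVC
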