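import Mathlib

/-!
# Definitions for the VMRT extension question

Points of projective `N`-space are nonzero vectors `x : ι → ℂ` (`ι` has `N + 1` elements) up to nonzero
scalars.  A projective variety is handled through its affine cone, a rational curve through its
parametrisations `(s,t) ↦ ∑ i, s^(e-i) t^i f_i` by binary forms without common zero.
-/

noncomputable section

namespace LVC

open MvPolynomial

/-- the quotient of the set `T` by the relation `R` is compact -/
def IsCompactMod {A : Type} [TopologicalSpace A] (T : Set A) (R : A → A → Prop) : Prop :=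
  CompactSpace (Quot fun f g : T => R f g)

variable {ι : Type} [Fintype ι] {m e n : ℕ}

/-- `x` and `y` are nonzero multiples of each other: they are the same point of projective space (when
they are nonzero) -/
def Same (x y : ι → ℂ) : Prop := ∃ c : ℂ, c ≠ 0 ∧ y = c • x

/-- the vector `a x + b y` -/
def lin (a b : ℂ) (x y : ι → ℂ) (i : ι) : ℂ := a * x i + b * y i

/-- the affine cone without its vertex of the variety `F = 0` -/
def cone (F : Fin m → MvPolynomial ι ℂ) : Set (ι → ℂ) := {x | x ≠ 0 ∧ ∀ j, eval x (F j) = 0}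

/-- the tangent space at `x` of the affine cone; modulo the line spanned by `x` it is the tangent space
of the variety at the point `x` (twisted by that line) -/
def tan (F : Fin m → MvPolynomial ι ℂ) (x : ι → ℂ) : Set (ι → ℂ) :=
  {v | ∀ j, ∑ i, eval x (pderiv i (F j)) * v i = 0}

/-- `F = 0` is a connected (indeed irreducible) projective manifold of dimension `n`: the `F j` are
homogeneous, generate a prime ideal and have a common zero in projective space, and at each common
zero the common kernel of their differentials has dimension `n + 1` (it has a basis `b`) -/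
def IsMfd (F : Fin m → MvPolynomial ι ℂ) (n : ℕ) : Prop :=
  (∀ j, ∃ d, (F j).IsHomogeneous d) ∧ (Ideal.span (Set.range F)).IsPrime ∧ (cone F).Nonempty ∧
    ∀ x ∈ cone F, ∃ b : Fin (n + 1) → ι → ℂ, (∀ k, b k ∈ tan F x) ∧
      ∀ v ∈ tan F x, ∃! a : Fin (n + 1) → ℂ, ∀ i, v i = ∑ k, a k * b k i

/-- `p` holds at the general point: at all points outside some hypersurface section that is not all -/
def Gen (F : Fin m → MvPolynomial ι ℂ) (p : (ι → ℂ) → Prop) : Prop :=
  ∃ (k : ℕ) (P : MvPolynomial ι ℂ), P.IsHomogeneous k ∧ (∃ x ∈ cone F, eval x P ≠ 0) ∧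
    ∀ x ∈ cone F, eval x P ≠ 0 → p x

/-- `Z` is (the cone over) a Zariski closed subset -/
def IsClo (F : Fin m → MvPolynomial ι ℂ) (Z : Set (ι → ℂ)) : Prop :=
  ∃ S : Set (MvPolynomial ι ℂ), (∀ P ∈ S, ∃ k, P.IsHomogeneous k) ∧
    Z = {x ∈ cone F | ∀ P ∈ S, eval x P = 0}

/-- `Z` is irreducible: nonempty, and a product of two homogeneous polynomials vanishes on `Z` only
if one of them does -/
def IsIrr (Z : Set (ι → ℂ)) : Prop :=
  Z.Nonempty ∧ ∀ (k l : ℕ) (P Q : MvPolynomial ι ℂ), P.IsHomogeneous k → Q.IsHomogeneous l →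
    (∀ x ∈ Z, eval x P * eval x Q = 0) → (∀ x ∈ Z, eval x P = 0) ∨ ∀ x ∈ Z, eval x Q = 0

/-- `Z` is a prime divisor: a maximal one among the irreducible closed subsets different from all -/
def PrimeDiv (F : Fin m → MvPolynomial ι ℂ) (Z : Set (ι → ℂ)) : Prop :=
  IsClo F Z ∧ IsIrr Z ∧ Z ≠ cone F ∧
    ∀ Z' : Set (ι → ℂ), IsClo F Z' → IsIrr Z' → Z' ≠ cone F → Z ⊆ Z' → Z' = Z

/-- every prime divisor is, as a set, the intersection with a hypersurface; so some multiple of every
divisor is linearly equivalent to a multiple of the hyperplane section, and the Picard number is one -/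
def PicOne (F : Fin m → MvPolynomial ι ℂ) : Prop :=
  ∀ Z : Set (ι → ℂ), PrimeDiv F Z →
    ∃ (k : ℕ) (P : MvPolynomial ι ℂ), P.IsHomogeneous k ∧ Z = {x ∈ cone F | eval x P = 0}

/-- the value at `(s,t)` of the binary forms with coefficients `f` -/
def ev (f : Fin (e + 1) → ι → ℂ) (s t : ℂ) (j : ι) : ℂ :=
  ∑ i : Fin (e + 1), s ^ (e - (i : ℕ)) * t ^ (i : ℕ) * f i j

/-- the value at `(s,t)` of the partial derivative along `s` -/
def evs (f : Fin (e + 1) → ι → ℂ) (s t : ℂ) (j : ι) : ℂ :=
  ∑ i : Fin (e + 1), ((e - (i : ℕ) : ℕ) : ℂ) * s ^ (e - (i : ℕ) - 1) * t ^ (i : ℕ) * f i j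

/-- the value at `(s,t)` of the partial derivative along `t` -/
def evt (f : Fin (e + 1) → ι → ℂ) (s t : ℂ) (j : ι) : ℂ :=
  ∑ i : Fin (e + 1), ((i : ℕ) : ℂ) * s ^ (e - (i : ℕ)) * t ^ ((i : ℕ) - 1) * f i j

/-- the parametrised rational curves of degree `e` on `F = 0`: binary forms without common zero, with
values in it, which give a map from the projective line that is birational onto its image (only
finitely many points of the projective line share their image with another point) -/
def ratCurves (F : Fin m → MvPolynomial ι ℂ) (e : ℕ) : Set (Fin (e + 1) → ι → ℂ) :=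
  {f | (∀ s t : ℂ, (s ≠ 0 ∨ t ≠ 0) → ev f s t ∈ cone F) ∧
    {s : ℂ | ∃ s' t' : ℂ, (s' ≠ 0 ∨ t' ≠ 0) ∧ s * t' ≠ s' ∧ Same (ev f s 1) (ev f s' t')}.Finite}

/-- a set of parametrised curves is irreducible in the Zariski topology of the coefficients -/
def IrrPar (T : Set (Fin (e + 1) → ι → ℂ)) : Prop :=
  T.Nonempty ∧ ∀ P Q : MvPolynomial (Fin (e + 1) × ι) ℂ,
    (∀ f ∈ T, eval (fun a => f a.1 a.2) P * eval (fun a => f a.1 a.2) Q = 0) →
      (∀ f ∈ T, eval (fun a => f a.1 a.2) P = 0) ∨ ∀ f ∈ T, eval (fun a => f a.1 a.2) Q = 0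

/-- `K` is an irreducible component of the space of parametrised rational curves of degree `e` (this
amounts to an irreducible component of the space of rational curves of degree `e`) -/
def IsComp (F : Fin m → MvPolynomial ι ℂ) (e : ℕ) (K : Set (Fin (e + 1) → ι → ℂ)) : Prop :=
  K ⊆ ratCurves F e ∧ IrrPar K ∧
    ∀ T : Set (Fin (e + 1) → ι → ℂ), T ⊆ ratCurves F e → IrrPar T → K ⊆ T → T = K

/-- the members of `K` through the point `x` -/
def thr (K : Set (Fin (e + 1) → ι → ℂ)) (x : ι → ℂ) : Set (Fin (e + 1) → ι → ℂ) :=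
  {f ∈ K | ∃ s t : ℂ, (s ≠ 0 ∨ t ≠ 0) ∧ Same x (ev f s t)}

/-- two parametrisations of the same rational curve: they differ by a linear change of the
parameters -/
def Rep (f g : Fin (e + 1) → ι → ℂ) : Prop :=
  ∃ a b c d : ℂ, a * d - b * c ≠ 0 ∧ ∀ s t : ℂ, ev g s t = ev f (a * s + b * t) (c * s + d * t)

/-- a minimal component: a component `K` of the space of rational curves such that for the general
point `x` the space of members of `K` through `x`, up to reparametrisation, is nonempty and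
compact -/
def MinComp (F : Fin m → MvPolynomial ι ℂ) (e : ℕ) (K : Set (Fin (e + 1) → ι → ℂ)) : Prop :=
  IsComp F e K ∧ Gen F fun x => (thr K x).Nonempty ∧ IsCompactMod (thr K x) Rep

/-- the curve `f` passes through the point `x` at the parameter `(s,t)` only, and is immersed
there: the image curve is smooth at `x` -/
def SmoothAt (f : Fin (e + 1) → ι → ℂ) (x : ι → ℂ) (s t : ℂ) : Prop :=
  (s ≠ 0 ∨ t ≠ 0) ∧ Same x (ev f s t) ∧
    (∀ s' t' : ℂ, (s' ≠ 0 ∨ t' ≠ 0) → Same x (ev f s' t') → s * t' = t * s') ∧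
    ∀ a b : ℂ, lin a b (evs f s t) (evt f s t) = 0 → a = 0 ∧ b = 0

/-- the affine cone over the variety of minimal rational tangents at `x`, a subset of the tangent
space at `x` of the affine cone which contains the line spanned by `x`: the closure of the union of
the planes spanned by the two partial derivatives, over the members of `K` that pass through `x` and
are smooth there -/
def vmrt (K : Set (Fin (e + 1) → ι → ℂ)) (x : ι → ℂ) : Set (ι → ℂ) :=
  closure {v | ∃ f ∈ K, ∃ s t a b : ℂ, SmoothAt f x s t ∧ v = lin a b (evs f s t) (evt f s t)}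

/-- `L` is a linear subspace -/
def IsSub (L : Set (ι → ℂ)) : Prop :=
  L.Nonempty ∧ ∀ a b : ℂ, ∀ x ∈ L, ∀ y ∈ L, lin a b x y ∈ L

/-- at the general point the variety of minimal rational tangents is a union of finitely many
linear subspaces -/
def LinearVmrt (F : Fin m → MvPolynomial ι ℂ) (K : Set (Fin (e + 1) → ι → ℂ)) : Prop :=
  Gen F fun x => ∃ S : Set (Set (ι → ℂ)), S.Finite ∧ (∀ L ∈ S, IsSub L) ∧
    vmrt K x = {v | ∃ L ∈ S, v ∈ L}

/-- at the general point the variety of minimal rational tangents is not the whole projectivised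
tangent space -/
def NotFull (F : Fin m → MvPolynomial ι ℂ) (K : Set (Fin (e + 1) → ι → ℂ)) : Prop :=
  Gen F fun x => vmrt K x ≠ tan F x

/-- `Φ` is a holomorphic lift at `x` of the map `φ`, defined near `x` on the cone -/
def IsLift (F : Fin m → MvPolynomial ι ℂ) (φ Φ : (ι → ℂ) → ι → ℂ) (x : ι → ℂ) : Prop :=
  AnalyticAt ℂ Φ x ∧ ∃ O : Set (ι → ℂ), IsOpen O ∧ x ∈ O ∧ ∀ y ∈ O, y ∈ cone F → Same (φ y) (Φ y)

/-- `φ` is a holomorphic map from the open subset `U` to `U'`: `U` is (the cone over) a connected open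
subset, and `φ` maps it to `U'`, points to points, with holomorphic lifts -/
def IsHol (F : Fin m → MvPolynomial ι ℂ) (U U' : Set (ι → ℂ)) (φ : (ι → ℂ) → ι → ℂ) : Prop :=
  (∃ O : Set (ι → ℂ), IsOpen O ∧ U = O ∩ cone F) ∧ IsConnected U ∧
    (∀ x ∈ U, (∀ c : ℂ, c ≠ 0 → c • x ∈ U) ∧ φ x ∈ U' ∧ (∀ y ∈ U, Same x y → Same (φ x) (φ y)) ∧
      ∃ Φ, IsLift F φ Φ x)

/-- `φ : U → U'` is a biholomorphic map between connected open subsets, with inverse `ψ` -/
def IsBihol (F : Fin m → MvPolynomial ι ℂ) (U U' : Set (ι → ℂ)) (φ ψ : (ι → ℂ) → ι → ℂ) : Prop :=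
  IsHol F U U' φ ∧ IsHol F U' U ψ ∧ (∀ x ∈ U, Same x (ψ (φ x))) ∧ ∀ x ∈ U', Same x (φ (ψ x))

/-- the derivative of `Φ` at `x` in the direction `v` -/
def dir (Φ : (ι → ℂ) → ι → ℂ) (x v : ι → ℂ) (i : ι) : ℂ := deriv (fun z : ℂ => Φ (lin 1 z x v) i) 0

/-- the differential of `φ` sends the variety of minimal rational tangents at every point `x` of
`U` onto the one at `φ x`, expressed with a holomorphic lift `Φ` of `φ` at `x` (whose differential
induces the differential of `φ` modulo the line spanned by `Φ x`) -/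
def Preserves (F : Fin m → MvPolynomial ι ℂ) (K : Set (Fin (e + 1) → ι → ℂ)) (U : Set (ι → ℂ))
    (φ : (ι → ℂ) → ι → ℂ) : Prop :=
  ∀ x ∈ U, ∃ Φ, IsLift F φ Φ x ∧
    {w | ∃ v ∈ vmrt K x, ∃ c : ℂ, w = lin 1 c (dir Φ x v) (Φ x)} = vmrt K (φ x)

/-- a regular map from the variety to itself, given locally by homogeneous polynomials of one degree -/
def IsReg (F : Fin m → MvPolynomial ι ℂ) (A : (ι → ℂ) → ι → ℂ) : Prop :=
  ∀ x ∈ cone F, A x ∈ cone F ∧
    ∃ (k : ℕ) (G : ι → MvPolynomial ι ℂ), (∀ i, (G i).IsHomogeneous k) ∧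
      (∃ i, eval x (G i) ≠ 0) ∧
      ∀ y ∈ cone F, (∃ i, eval y (G i) ≠ 0) → Same (A y) fun i => eval y (G i)

/-- `φ` is the restriction of a biregular automorphism -/
def Extends (F : Fin m → MvPolynomial ι ℂ) (U : Set (ι → ℂ)) (φ : (ι → ℂ) → ι → ℂ) : Prop :=
  ∃ A B, IsReg F A ∧ IsReg F B ∧ (∀ x ∈ cone F, Same x (B (A x)) ∧ Same x (A (B x))) ∧
    ∀ x ∈ U, Same (φ x) (A x)

end LVC
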